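import Pool.Agent.H16.GW.Targets
import Pool.Agent.H23.GB.AFH

/-!
Row AFW of the board gw: the approximate functional equation with a continued Mellin transform
(adapted from the row AFH of helper23).
-/

namespace Pool.Agent.H16.GW

open MeasureTheory Real Pool.Agent.H34.GA Pool.Agent.H23.GB Pool.Agent.H23.GB.AF

/-! ### the reflected cut-off -/

/-- the reflected cut-off -/
noncomputable def gc (c : ℝ) (J : ℕ) (x : ℝ) : ℂ := ((gs (c - x) - gs (c - x - J) : ℝ) : ℂ)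

lemma gc_sm (c : ℝ) (J : ℕ) : ContDiff ℝ ((⊤ : ℕ∞) : WithTop ℕ∞) (gc c J) := by
  unfold gc gs
  refine Complex.ofRealCLM.contDiff.comp ?_
  refine ContDiff.sub ?_ ?_
  · exact Real.smoothTransition.contDiff.comp (contDiff_const.sub contDiff_id)
  · exact Real.smoothTransition.contDiff.comp ((contDiff_const.sub contDiff_id).sub contDiff_const)

lemma gc_cs (c : ℝ) (J : ℕ) : HasCompactSupport (gc c J) := by
  refine HasCompactSupport.of_support_subset_isCompact (K := Set.Icc (c - J - 1) c)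
    isCompact_Icc ?_
  intro x hx
  rw [Function.mem_support] at hx
  by_contra h
  apply hx
  rw [Set.mem_Icc, not_and_or, not_le, not_le] at h
  have hJ : (0 : ℝ) ≤ J := Nat.cast_nonneg J
  unfold gc
  rcases h with h | h
  · rw [gs_one (by linarith), gs_one (by linarith)]
    simp
  · rw [gs_zero (by linarith), gs_zero (by linarith)]
    simp

lemma ftr_wt (ξ : ℝ) : ftr wt ξ = wh ξ := by
  have h1 : wh ξ = (FourierTransform.fourier (wS : ℝ → ℂ) : ℝ → ℂ) ξ := by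
    unfold wh
    rw [SchwartzMap.fourier_coe]
  rw [h1, Real.fourier_eq']
  unfold ftr
  refine integral_congr_ae (Filter.Eventually.of_forall fun x => ?_)
  simp only [smul_eq_mul]
  rw [mul_comm]
  have h5 : inner ℝ x ξ = ξ * x := by
    rw [real_inner_eq_re_inner]
    simp
  have h6 : -2 * Real.pi * inner ℝ x ξ = -(2 * Real.pi * ξ * x) := by
    rw [h5]
    ring
  rw [h6]
  rfl

lemma ftr_int {g : ℝ → ℂ} (hg : Continuous g) (hc : HasCompactSupport g) (ξ : ℝ) :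
    Integrable fun x : ℝ => g x * Complex.exp (((-(2 * Real.pi * ξ * x) : ℝ) : ℂ) * Complex.I) := by
  refine Continuous.integrable_of_hasCompactSupport (hg.mul (by fun_prop)) ?_
  exact hc.mul_right

lemma ftr_refl (b ξ : ℝ) : ftr (fun x => wt (b - x)) ξ =
    Complex.exp (((-(2 * Real.pi * ξ * b) : ℝ) : ℂ) * Complex.I) * wh (-ξ) := by
  rw [← ftr_wt]
  unfold ftr
  rw [← integral_const_mul, ← integral_sub_left_eq_self (fun x => wt (b - x) *
    Complex.exp (((-(2 * Real.pi * ξ * x) : ℝ) : ℂ) * Complex.I)) volume b]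
  refine integral_congr_ae (Filter.Eventually.of_forall fun x => ?_)
  simp only [sub_sub_cancel]
  have h1 : (((-(2 * Real.pi * ξ * (b - x)) : ℝ) : ℂ) * Complex.I) =
      ((-(2 * Real.pi * ξ * b) : ℝ) : ℂ) * Complex.I +
        ((-(2 * Real.pi * -ξ * x) : ℝ) : ℂ) * Complex.I := by
    push_cast
    ring
  rw [h1, Complex.exp_add]
  ring

lemma gc_sum (c : ℝ) (J : ℕ) (x : ℝ) : gc c J x = ∑ j ∈ Finset.range J, wt (c - j - x) := by
  unfold gc
  induction J with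
  | zero => simp
  | succ n ih =>
    rw [Finset.sum_range_succ, ← ih]
    unfold wt
    have h3 : c - x - ((n + 1 : ℕ) : ℝ) = c - n - x - 1 := by push_cast; ring
    have h4 : c - x - (n : ℝ) = c - n - x := by ring
    rw [h3, h4]
    push_cast
    ring

lemma ftr_gc (c : ℝ) (J : ℕ) (ξ : ℝ) : ftr (gc c J) ξ = (∑ j ∈ Finset.range J,
    Complex.exp (((-(2 * Real.pi * ξ * (c - j)) : ℝ) : ℂ) * Complex.I)) * wh (-ξ) := by
  have h1 : ∀ j ∈ Finset.range J, Integrable fun x : ℝ => wt (c - j - x) *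
      Complex.exp (((-(2 * Real.pi * ξ * x) : ℝ) : ℂ) * Complex.I) := by
    intro j _
    have h2 : HasCompactSupport (fun x : ℝ => wt (c - j - x)) := by
      refine HasCompactSupport.of_support_subset_isCompact (K := Set.Icc (c - j - 2) (c - j))
        isCompact_Icc ?_
      intro x hx
      rw [Function.mem_support] at hx
      by_contra h
      apply hx
      rw [Set.mem_Icc, not_and_or, not_le, not_le] at h
      unfold wt
      rcases h with h | h
      · rw [gs_one (by linarith), gs_one (by linarith)]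
        simp
      · rw [gs_zero (by linarith), gs_zero (by linarith)]
        simp
    refine ftr_int ?_ h2 ξ
    exact wt_sm.continuous.comp (by fun_prop)
  unfold ftr
  have h3 : ∀ x : ℝ, gc c J x * Complex.exp (((-(2 * Real.pi * ξ * x) : ℝ) : ℂ) * Complex.I) =
      ∑ j ∈ Finset.range J, wt (c - j - x) *
        Complex.exp (((-(2 * Real.pi * ξ * x) : ℝ) : ℂ) * Complex.I) := by
    intro x
    rw [gc_sum, Finset.sum_mul]
  rw [integral_congr_ae (Filter.Eventually.of_forall h3), integral_finsetSum _ h1, Finset.sum_mul]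
  refine Finset.sum_congr rfl fun j _ => ?_
  exact ftr_refl (c - j) ξ

lemma ftr_gc_bd (c : ℝ) (J : ℕ) (ξ : ℝ) : ‖ftr (gc c J) ξ‖ ≤ J * k0 ξ := by
  rw [ftr_gc, norm_mul]
  have h1 : ‖∑ j ∈ Finset.range J,
      Complex.exp (((-(2 * Real.pi * ξ * (c - j)) : ℝ) : ℂ) * Complex.I)‖ ≤ J := by
    refine (norm_sum_le _ _).trans ?_
    simp only [exp_norm]
    simp
  refine mul_le_mul h1 ?_ (norm_nonneg _) (Nat.cast_nonneg J)
  unfold k0
  linarith [norm_nonneg (wh ξ)]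

lemma ftr_shift (g : ℝ → ℂ) (l ξ : ℝ) : ftr (fun y => g (y + l)) ξ =
    Complex.exp (2 * Real.pi * ξ * l * Complex.I) * ftr g ξ := by
  unfold ftr
  rw [← integral_const_mul, ← integral_add_right_eq_self (fun x => Complex.exp (2 * Real.pi * ξ * l *
    Complex.I) * (g x * Complex.exp (((-(2 * Real.pi * ξ * x) : ℝ) : ℂ) * Complex.I))) l]
  refine integral_congr_ae (Filter.Eventually.of_forall fun x => ?_)
  simp only []
  have h1 : (((-(2 * Real.pi * ξ * x) : ℝ) : ℂ) * Complex.I) = 2 * Real.pi * ξ * l * Complex.I +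
        ((-(2 * Real.pi * ξ * (x + l)) : ℝ) : ℂ) * Complex.I := by
    push_cast
    ring
  rw [h1, Complex.exp_add]
  ring

/-- one term -/
lemma rep_term {m : ℕ} (hm : 1 ≤ m) {ψ' : ℝ → ℂ} (hc : ContinuousOn ψ' (Set.Ioi 0))
    {Mf : ℝ → ℂ} (hR : Rep m ψ' Mf) (c : ℝ) (J : ℕ) (t l : ℝ) :
    Integrable (fun x => ψ' (Real.exp (x - l)) * gc c J x * ex ((m : ℝ) ^ 2 / 2) m t x) ∧
    Integrable (fun ξ => ex ((m : ℝ) ^ 2 / 2) m (t - 2 * Real.pi * ξ / m) l *
      (ftr (gc c J) ξ * Mf (t - 2 * Real.pi * ξ / m))) ∧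
    ∫ x, ψ' (Real.exp (x - l)) * gc c J x * ex ((m : ℝ) ^ 2 / 2) m t x =
      ∫ ξ, ex ((m : ℝ) ^ 2 / 2) m (t - 2 * Real.pi * ξ / m) l *
        (ftr (gc c J) ξ * Mf (t - 2 * Real.pi * ξ / m)) := by
  have hm0 : (m : ℝ) ≠ 0 := by
    have : (0 : ℝ) < m := by exact_mod_cast hm
    exact this.ne'
  have hcont : ∀ l : ℝ, Continuous fun x => ψ' (Real.exp (x - l)) := fun l =>
    hc.comp_continuous (by fun_prop) fun x => Real.exp_pos _
  have hgs : ContDiff ℝ ((⊤ : ℕ∞) : WithTop ℕ∞) (fun y => gc c J (y + l)) :=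
    (gc_sm c J).comp (contDiff_id.add contDiff_const)
  have hgc : HasCompactSupport (fun y => gc c J (y + l)) := by
    refine HasCompactSupport.of_support_subset_isCompact (K := Set.Icc (c - J - 1 - l) (c - l))
      isCompact_Icc ?_
    intro x hx
    rw [Function.mem_support] at hx
    by_contra h
    apply hx
    rw [Set.mem_Icc, not_and_or, not_le, not_le] at h
    have hJ : (0 : ℝ) ≤ J := Nat.cast_nonneg J
    unfold gc
    rcases h with h | h
    · rw [gs_one (by linarith), gs_one (by linarith)]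
      simp
    · rw [gs_zero (by linarith), gs_zero (by linarith)]
      simp
  obtain ⟨h1, h2⟩ := hR.eq _ hgs hgc t
  have h3 : ∀ ξ : ℝ, ex ((m : ℝ) ^ 2 / 2) m t l *
      (ftr (fun y => gc c J (y + l)) ξ * Mf (t - 2 * Real.pi * ξ / m)) =
      ex ((m : ℝ) ^ 2 / 2) m (t - 2 * Real.pi * ξ / m) l *
        (ftr (gc c J) ξ * Mf (t - 2 * Real.pi * ξ / m)) := by
    intro ξ
    rw [ftr_shift, ← ex_shift _ _ t ξ l hm0]
    ring
  refine ⟨?_, ?_, ?_⟩
  · refine Continuous.integrable_of_hasCompactSupport ?_ ?_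
    · exact ((hcont l).mul (gc_sm c J).continuous).mul (ex_cont _ _ _)
    · exact ((gc_cs c J).mul_left).mul_right
  · exact (h1.const_mul (ex ((m : ℝ) ^ 2 / 2) m t l)).congr
      (Filter.Eventually.of_forall h3)
  · rw [← integral_congr_ae (Filter.Eventually.of_forall h3), integral_const_mul, ← h2,
      ← integral_const_mul,
      ← integral_add_right_eq_self (fun x => ψ' (Real.exp (x - l)) * gc c J x *
        ex ((m : ℝ) ^ 2 / 2) m t x) l]
    refine integral_congr_ae (Filter.Eventually.of_forall fun x => ?_)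
    simp only [add_sub_cancel_right]
    rw [ex_add]
    have h4 : exx m t x = ex ((m : ℝ) ^ 2 / 2) m t x := rfl
    rw [h4]
    ring

/-- the finite sum against the reflected cut-off -/
lemma rep_bd {m : ℕ} (hm : 1 ≤ m) {ψ' : ℝ → ℂ} (hc : ContinuousOn ψ' (Set.Ioi 0))
    {Mf : ℝ → ℂ} (hR : Rep m ψ' Mf) {M : ℝ} (hM : ∀ t, ‖Mf t‖ ≤ M) (c : ℝ) (J : ℕ) (t : ℝ)
    (S : Finset ℕ) (a : ℕ → ℂ) (l : ℕ → ℝ) :
    Integrable (fun x => (∑ n ∈ S, a n * ψ' (Real.exp (x - l n))) *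
      ((gs (c - x) - gs (c - x - J) : ℝ) : ℂ) * ex ((m : ℝ) ^ 2 / 2) m t x) ∧
    ‖∫ x, (∑ n ∈ S, a n * ψ' (Real.exp (x - l n))) *
      ((gs (c - x) - gs (c - x - J) : ℝ) : ℂ) * ex ((m : ℝ) ^ 2 / 2) m t x‖ ≤
      J * M * ∫ ξ, k0 ξ * ‖∑ n ∈ S, a n * ex ((m : ℝ) ^ 2 / 2) m
        (t - 2 * Real.pi * ξ / m) (l n)‖ := by
  set σ : ℝ := (m : ℝ) ^ 2 / 2 with hσ
  have h1 : ∀ x, (∑ n ∈ S, a n * ψ' (Real.exp (x - l n))) *
      ((gs (c - x) - gs (c - x - J) : ℝ) : ℂ) * ex σ m t x =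
      ∑ n ∈ S, a n * (ψ' (Real.exp (x - l n)) * gc c J x * ex σ m t x) := by
    intro x
    rw [Finset.sum_mul, Finset.sum_mul]
    refine Finset.sum_congr rfl fun n _ => ?_
    unfold gc
    ring
  have hI : Integrable (fun ξ => k0 ξ * ‖∑ n ∈ S, a n * ex σ m
      (t - 2 * Real.pi * ξ / m) (l n)‖) := by
    refine Integrable.mul_bdd (c := ∑ n ∈ S, ‖a n‖ * Real.exp (-(σ * l n))) k0_int ?_ ?_
    · have : Continuous fun ξ : ℝ => ∑ n ∈ S, a n * ex σ m (t - 2 * Real.pi * ξ / m) (l n) := by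
        unfold ex
        fun_prop
      exact this.norm.aestronglyMeasurable
    · refine Filter.Eventually.of_forall fun ξ => ?_
      rw [norm_norm]
      refine (norm_sum_le _ _).trans (Finset.sum_le_sum fun n _ => ?_)
      rw [norm_mul, ex_norm]
  refine ⟨?_, ?_⟩
  · simp only [h1]
    exact integrable_finsetSum _ fun n _ => (rep_term hm hc hR c J t (l n)).1.const_mul _
  · have h2 : ∫ x, (∑ n ∈ S, a n * ψ' (Real.exp (x - l n))) *
        ((gs (c - x) - gs (c - x - J) : ℝ) : ℂ) * ex σ m t x =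
        ∫ ξ, (∑ n ∈ S, a n * ex σ m (t - 2 * Real.pi * ξ / m) (l n)) *
          (ftr (gc c J) ξ * Mf (t - 2 * Real.pi * ξ / m)) := by
      rw [integral_congr_ae (Filter.Eventually.of_forall h1), integral_finsetSum _
        fun n _ => (rep_term hm hc hR c J t (l n)).1.const_mul _]
      have h3 : ∀ n ∈ S, ∫ x, a n * (ψ' (Real.exp (x - l n)) * gc c J x * ex σ m t x) =
          ∫ ξ, a n * (ex σ m (t - 2 * Real.pi * ξ / m) (l n) *
            (ftr (gc c J) ξ * Mf (t - 2 * Real.pi * ξ / m))) := by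
        intro n _
        rw [integral_const_mul, (rep_term hm hc hR c J t (l n)).2.2, integral_const_mul]
      rw [Finset.sum_congr rfl h3, ← integral_finsetSum _
        fun n _ => (rep_term hm hc hR c J t (l n)).2.1.const_mul _]
      refine integral_congr_ae (Filter.Eventually.of_forall fun ξ => ?_)
      simp only []
      rw [Finset.sum_mul]
      refine Finset.sum_congr rfl fun n _ => ?_
      ring
    rw [h2, ← integral_const_mul]
    refine norm_integral_le_of_norm_le (hI.const_mul _) (Filter.Eventually.of_forall fun ξ => ?_)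
    rw [norm_mul, norm_mul]
    have h4 := ftr_gc_bd c J ξ
    have h5 := hM (t - 2 * Real.pi * ξ / m)
    have h6 : ‖ftr (gc c J) ξ‖ * ‖Mf (t - 2 * Real.pi * ξ / m)‖ ≤ (J * k0 ξ) * M :=
      mul_le_mul h4 h5 (norm_nonneg _) ((norm_nonneg _).trans h4)
    calc _ ≤ ‖∑ n ∈ S, a n * ex σ m (t - 2 * Real.pi * ξ / m) (l n)‖ * ((J * k0 ξ) * M) :=
          mul_le_mul_of_nonneg_left h6 (norm_nonneg _)
      _ = _ := by ring

/-- one term of the dual sum -/
lemma term_bw {m : ℕ} (hm : 1 ≤ m) (K1 : ℕ) {B M d : ℝ} (hB : 0 < B) (hM : 0 ≤ M) (hd : 0 < d)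
    {lam : ℕ → ℂ} {ψ' : ℝ → ℂ}
    (h1 : ∀ r : ℝ, 0 < r → ‖ψ' r‖ ≤ M * (r / d) ^ (m * (m + 2 + K1)))
    (h2 : ∀ n : ℕ, 1 ≤ n → ‖(n : ℂ) ^ (((m : ℂ) - 1) / 2) * lam n‖ ≤ B * (n : ℝ) ^ m)
    {n : ℕ} (hn : 1 ≤ n) (y : ℝ) :
    ‖ac m lam n * ψ' (Real.exp (y - ll m n))‖ ≤
      B * M * (Real.exp y / d) ^ (m * (m + 2 + K1)) * (((n : ℝ) ^ 2)⁻¹ * ((n : ℝ) ^ K1)⁻¹) := by
  have hn0 : (0 : ℝ) < n := by exact_mod_cast hn
  have hm0 : (m : ℝ) ≠ 0 := by
    have : (0 : ℝ) < m := by exact_mod_cast hm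
    exact this.ne'
  rw [norm_mul]
  have h3 := h1 (Real.exp (y - ll m n)) (Real.exp_pos _)
  have h4 : Real.exp (y - ll m n) / d = Real.exp y / d * Real.exp (-(ll m n)) := by
    rw [sub_eq_add_neg, Real.exp_add]
    ring
  have h5 : (Real.exp (-(ll m n))) ^ (m * (m + 2 + K1)) = ((n : ℝ) ^ (m + 2 + K1))⁻¹ := by
    rw [← Real.exp_nat_mul]
    have : ((m * (m + 2 + K1) : ℕ) : ℝ) * -(ll m n) = -(((m + 2 + K1 : ℕ) : ℝ) * Real.log n) := by
      unfold ll
      push_cast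
      field_simp
    rw [this, Real.exp_neg, Real.exp_nat_mul, Real.exp_log hn0]
  have h6 : ‖ψ' (Real.exp (y - ll m n))‖ ≤
      M * ((Real.exp y / d) ^ (m * (m + 2 + K1)) * ((n : ℝ) ^ (m + 2 + K1))⁻¹) := by
    refine h3.trans (le_of_eq ?_)
    rw [h4, mul_pow, h5]
  calc ‖ac m lam n‖ * ‖ψ' (Real.exp (y - ll m n))‖ ≤ (B * (n : ℝ) ^ m) *
        (M * ((Real.exp y / d) ^ (m * (m + 2 + K1)) * ((n : ℝ) ^ (m + 2 + K1))⁻¹)) :=
        mul_le_mul (h2 n hn) h6 (norm_nonneg _) (by positivity)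
    _ = _ := by
      have : ((n : ℝ) ^ (m + 2 + K1))⁻¹ = ((n : ℝ) ^ m)⁻¹ * (((n : ℝ) ^ 2)⁻¹ * ((n : ℝ) ^ K1)⁻¹) := by
        rw [pow_add, pow_add, mul_inv, mul_inv]
        ring
      rw [this]
      field_simp

/-- the dual sum and its finite part -/
lemma dual_bw {m : ℕ} (hm : 1 ≤ m) (K1 : ℕ) {B M d : ℝ} (hB : 0 < B) (hM : 0 ≤ M) (hd : 0 < d)
    {lam : ℕ → ℂ} {ψ' : ℝ → ℂ}
    (h1 : ∀ r : ℝ, 0 < r → ‖ψ' r‖ ≤ M * (r / d) ^ (m * (m + 2 + K1)))
    (h2 : ∀ n : ℕ, 1 ≤ n → ‖(n : ℂ) ^ (((m : ℂ) - 1) / 2) * lam n‖ ≤ B * (n : ℝ) ^ m)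
    (X : ℕ) (hX : 1 ≤ X) (y : ℝ) :
    ‖∑ n ∈ Finset.Icc 1 X, ac m lam n * ψ' (Real.exp (y - ll m n))‖ ≤
      B * M * (Real.exp y / d) ^ (m * (m + 2 + K1)) * S0 ∧
    ‖thA m ψ' lam (Real.exp y) - ∑ n ∈ Finset.Icc 1 X, ac m lam n * ψ' (Real.exp (y - ll m n))‖ ≤
      B * M * (Real.exp y / d) ^ (m * (m + 2 + K1)) * ((X : ℝ) ^ K1)⁻¹ * S0 := by
  set A : ℝ := B * M * (Real.exp y / d) ^ (m * (m + 2 + K1)) with hA
  have hA0 : 0 ≤ A := by
    have := Real.exp_pos y
    positivity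
  have hX0 : (0 : ℝ) < X := by exact_mod_cast hX
  set f : ℕ → ℂ := fun n => if 1 ≤ n then ac m lam n * ψ' (Real.exp (y - ll m n)) else 0 with hf
  have hft : ∀ n : ℕ, ‖f n‖ ≤ A * ((n : ℝ) ^ 2)⁻¹ := by
    intro n
    simp only [hf]
    split_ifs with h
    · refine (term_bw hm K1 hB hM hd h1 h2 h y).trans ?_
      rw [← hA]
      refine mul_le_mul_of_nonneg_left ?_ hA0
      have h3 : ((n : ℝ) ^ K1)⁻¹ ≤ 1 := by
        refine inv_le_one_of_one_le₀ (one_le_pow₀ ?_)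
        exact_mod_cast h
      have h4 : 0 ≤ ((n : ℝ) ^ 2)⁻¹ := by positivity
      nlinarith
    · rw [norm_zero]
      positivity
  have hsum : Summable f := Summable.of_norm_bounded (S0_sum.summable.mul_left A) hft
  have hfin : ∑ n ∈ Finset.Icc 1 X, ac m lam n * ψ' (Real.exp (y - ll m n)) =
      ∑ n ∈ Finset.Icc 1 X, f n := by
    refine Finset.sum_congr rfl fun n hn => ?_
    simp only [hf]
    rw [if_pos (Finset.mem_Icc.1 hn).1]
  constructor
  · rw [hfin]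
    refine (norm_sum_le _ _).trans ?_
    calc ∑ n ∈ Finset.Icc 1 X, ‖f n‖ ≤ ∑ n ∈ Finset.Icc 1 X, A * ((n : ℝ) ^ 2)⁻¹ :=
          Finset.sum_le_sum fun n _ => hft n
      _ ≤ ∑' n : ℕ, A * ((n : ℝ) ^ 2)⁻¹ :=
          (S0_sum.summable.mul_left A).sum_le_tsum _ fun n _ => by positivity
      _ = A * S0 := by rw [tsum_mul_left]; rfl
  · rw [hfin, thA_exp hm]
    have h5 : ∑ n ∈ Finset.Icc 1 X, f n = ∑' n : ℕ, if n ∈ Finset.Icc 1 X then f n else 0 := by
      rw [tsum_eq_sum (s := Finset.Icc 1 X)]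
      · exact Finset.sum_congr rfl fun n hn => (if_pos hn).symm
      · intro n hn
        exact if_neg hn
    have h6 : Summable fun n : ℕ => if n ∈ Finset.Icc 1 X then f n else 0 :=
      summable_of_ne_finset_zero (s := Finset.Icc 1 X) fun n hn => if_neg hn
    rw [h5]
    show ‖(∑' n : ℕ, f n) - ∑' n : ℕ, (if n ∈ Finset.Icc 1 X then f n else 0)‖ ≤ _
    rw [← Summable.tsum_sub hsum h6]
    refine tsum_of_norm_bounded ((S0_sum.mul_left (A * ((X : ℝ) ^ K1)⁻¹))) fun n => ?_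
    split_ifs with h
    · rw [sub_self, norm_zero]
      positivity
    · rw [sub_zero]
      simp only [hf]
      split_ifs with h7
      · have h8 : X < n := by
          by_contra h9
          exact h (Finset.mem_Icc.2 ⟨h7, not_lt.1 h9⟩)
        refine (term_bw hm K1 hB hM hd h1 h2 h7 y).trans ?_
        rw [← hA, mul_assoc A]
        refine mul_le_mul_of_nonneg_left ?_ hA0
        rw [mul_comm]
        refine mul_le_mul_of_nonneg_right ?_ (by positivity)
        refine inv_anti₀ (by positivity) (pow_le_pow_left₀ hX0.le ?_ K1)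
        exact_mod_cast h8.le
      · rw [norm_zero]
        positivity

/-- the dual integral -/
lemma dual_pw {m : ℕ} (hm : 1 ≤ m) (K1 J : ℕ) {B M d c : ℝ} (hB : 0 < B) (hM : 0 ≤ M)
    (hd : 0 < d) {lam : ℕ → ℂ} {ψ' : ℝ → ℂ} (hc : ContinuousOn ψ' (Set.Ioi 0))
    (h1 : ∀ r : ℝ, 0 < r → ‖ψ' r‖ ≤ M * (r / d) ^ (m * (m + 2 + K1)))
    (h2 : ∀ n : ℕ, 1 ≤ n → ‖(n : ℂ) ^ (((m : ℂ) - 1) / 2) * lam n‖ ≤ B * (n : ℝ) ^ m)
    {Mf : ℝ → ℂ} (hR : Rep m ψ' Mf) (h3 : ∀ t : ℝ, ‖Mf t‖ ≤ M)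
    (X : ℕ) (hX : 1 ≤ X) (t : ℝ)
    (hD : Integrable fun y => thA m ψ' lam (Real.exp y) * ((gs (c - y) : ℝ) : ℂ) *
      ex ((m : ℝ) ^ 2 / 2) m t y) :
    ‖∫ y, thA m ψ' lam (Real.exp y) * ((gs (c - y) : ℝ) : ℂ) * ex ((m : ℝ) ^ 2 / 2) m t y‖ ≤
      J * M * (∫ τ : ℝ, kk m τ * ‖SX lam X (1 / 2 + ((t + τ : ℝ) : ℂ) * Complex.I)‖) +
      B * M * S0 * (d⁻¹ ^ (m * (m + 2 + K1)) * ((X : ℝ) ^ K1)⁻¹ *
        Real.exp ((((m * (m + 2 + K1) : ℕ) : ℝ) - (m : ℝ) ^ 2 / 2) * c) +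
        d⁻¹ ^ (m * (m + 2 + K1)) *
        Real.exp ((((m * (m + 2 + K1) : ℕ) : ℝ) - (m : ℝ) ^ 2 / 2) * (c - J))) := by
  have hmr : (1 : ℝ) ≤ m := by exact_mod_cast hm
  have hm0 : (m : ℝ) ≠ 0 := by positivity
  set σ : ℝ := (m : ℝ) ^ 2 / 2 with hσ
  set K : ℕ := m * (m + 2 + K1) with hK
  have hKr : (K : ℝ) = m * (m + 2 + K1) := by rw [hK]; push_cast; ring
  have hK1r : (0 : ℝ) ≤ K1 := Nat.cast_nonneg K1
  have hKσ : 1 ≤ (K : ℝ) - σ := by
    rw [hKr, hσ]
    nlinarith [mul_nonneg (by linarith : (0 : ℝ) ≤ m) hK1r]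
  obtain ⟨hi1, hb1⟩ := rep_bd hm hc hR h3 c J t (Finset.Icc 1 X) (ac m lam) (ll m)
  rw [← hσ] at hb1
  have hsx : ∀ t : ℝ, ∑ n ∈ Finset.Icc 1 X, ac m lam n * ex σ m t (ll m n) =
      SX lam X (1 / 2 + (t : ℂ) * Complex.I) := fun t => sum_SX hm lam X t
  simp only [hsx] at hb1
  have hkk := kk_int m hm (fun u => ‖SX lam X (1 / 2 + (u : ℂ) * Complex.I)‖) t
  rw [hkk] at hb1
  set D1 : ℝ → ℂ := fun y => (∑ n ∈ Finset.Icc 1 X, ac m lam n * ψ' (Real.exp (y - ll m n))) *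
    ((gs (c - y) - gs (c - y - J) : ℝ) : ℂ) * ex σ m t y with hD1
  set D : ℝ → ℂ := fun y => thA m ψ' lam (Real.exp y) * ((gs (c - y) : ℝ) : ℂ) * ex σ m t y
    with hDd
  have hsplit : ∫ y, D y = (∫ y, D1 y) + ∫ y, (D y - D1 y) := by
    rw [integral_sub hD hi1]
    ring
  rw [hsplit]
  refine (norm_add_le _ _).trans (add_le_add hb1 ?_)
  set A : ℝ := B * M * d⁻¹ ^ K * S0 with hA
  have hS := S0_nn
  have hA0 : 0 ≤ A := by positivity
  obtain ⟨hmi, hme⟩ := maj_int (k := (K : ℝ) - σ) (A1 := A * ((X : ℝ) ^ K1)⁻¹) (A2 := A)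
    (c1 := c) (c2 := c - J) (by linarith)
  have hpt : ∀ y, ‖D y - D1 y‖ ≤
      (Set.Iic c).indicator (fun y => A * ((X : ℝ) ^ K1)⁻¹ * Real.exp (((K : ℝ) - σ) * y)) y +
      (Set.Iic (c - J)).indicator (fun y => A * Real.exp (((K : ℝ) - σ) * y)) y := by
    intro y
    obtain ⟨hs1, hs2⟩ := dual_bw hm K1 hB hM hd h1 h2 X hX y
    set Sm := ∑ n ∈ Finset.Icc 1 X, ac m lam n * ψ' (Real.exp (y - ll m n)) with hSm
    have he : D y - D1 y = ((thA m ψ' lam (Real.exp y) - Sm) * ((gs (c - y) : ℝ) : ℂ) +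
        Sm * ((gs (c - y - J) : ℝ) : ℂ)) * ex σ m t y := by
      simp only [hDd, hD1]
      rw [← hSm]
      push_cast
      ring
    rw [he, norm_mul, ex_norm]
    have hE : (Real.exp y / d) ^ K = d⁻¹ ^ K * Real.exp (K * y) := by
      rw [div_eq_mul_inv, mul_pow, ← Real.exp_nat_mul]
      ring
    have hexp : Real.exp (((K : ℝ) - σ) * y) = Real.exp (K * y) * Real.exp (-(σ * y)) := by
      rw [← Real.exp_add]
      congr 1
      ring
    have hp1 : ‖(thA m ψ' lam (Real.exp y) - Sm) * ((gs (c - y) : ℝ) : ℂ)‖ *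
        Real.exp (-(σ * y)) ≤ (Set.Iic c).indicator
          (fun y => A * ((X : ℝ) ^ K1)⁻¹ * Real.exp (((K : ℝ) - σ) * y)) y := by
      rw [norm_mul, Complex.norm_real, Real.norm_of_nonneg (gs_nn _)]
      by_cases hy : y ≤ c
      · rw [Set.indicator_of_mem (by exact hy)]
        calc ‖thA m ψ' lam (Real.exp y) - Sm‖ * gs (c - y) * Real.exp (-(σ * y)) ≤
              (B * M * (Real.exp y / d) ^ K * ((X : ℝ) ^ K1)⁻¹ * S0) * 1 *
                Real.exp (-(σ * y)) := by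
              refine mul_le_mul_of_nonneg_right ?_ (Real.exp_pos _).le
              exact mul_le_mul hs2 (gs_le _) (gs_nn _) ((norm_nonneg _).trans hs2)
          _ = _ := by rw [hE, hexp, hA]; ring
      · rw [Set.indicator_of_notMem (by exact hy), gs_zero (by linarith)]
        simp
    have hp2 : ‖Sm * ((gs (c - y - J) : ℝ) : ℂ)‖ *
        Real.exp (-(σ * y)) ≤ (Set.Iic (c - J)).indicator
          (fun y => A * Real.exp (((K : ℝ) - σ) * y)) y := by
      rw [norm_mul, Complex.norm_real, Real.norm_of_nonneg (gs_nn _)]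
      by_cases hy : y ≤ c - J
      · rw [Set.indicator_of_mem (by exact hy)]
        calc ‖Sm‖ * gs (c - y - J) * Real.exp (-(σ * y)) ≤
              (B * M * (Real.exp y / d) ^ K * S0) * 1 * Real.exp (-(σ * y)) := by
              refine mul_le_mul_of_nonneg_right ?_ (Real.exp_pos _).le
              exact mul_le_mul hs1 (gs_le _) (gs_nn _) ((norm_nonneg _).trans hs1)
          _ = _ := by rw [hE, hexp, hA]; ring
      · rw [Set.indicator_of_notMem (by exact hy), gs_zero (by linarith)]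
        simp
    calc _ ≤ (‖(thA m ψ' lam (Real.exp y) - Sm) * ((gs (c - y) : ℝ) : ℂ)‖ +
          ‖Sm * ((gs (c - y - J) : ℝ) : ℂ)‖) * Real.exp (-(σ * y)) :=
          mul_le_mul_of_nonneg_right (norm_add_le _ _) (Real.exp_pos _).le
      _ = _ := add_mul _ _ _
      _ ≤ _ := add_le_add hp1 hp2
  refine (norm_integral_le_of_norm_le hmi (Filter.Eventually.of_forall hpt)).trans ?_
  rw [hme]
  refine (div_le_self (by positivity) hKσ).trans (le_of_eq ?_)
  rw [hA]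
  ring

theorem pf_AFW : T_AFW := by
  intro m hm r0 B ε hr0 hB hε
  have hmr : (1 : ℝ) ≤ m := by exact_mod_cast hm
  have hm0 : (m : ℝ) ≠ 0 := by positivity
  have hlr : 0 ≤ Real.log r0 := Real.log_nonneg hr0
  set lr := Real.log r0 with hlrd
  obtain ⟨K1, hK1⟩ := exists_nat_ge (((m : ℝ) * (m + 2) + (m : ℝ) ^ 2) / ε)
  obtain ⟨a0, ha0⟩ := exists_nat_ge (lr + 1)
  have hS := S0_nn
  refine ⟨kk m, m * (m + 2 + K1), Real.exp (m * (2 + lr)) + (3 / ε + 2 + a0) + 2 * (B * S0),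
    kk_krn m hm, ?_, by positivity, ?_⟩
  · rw [pow_two]
    exact Nat.mul_le_mul_left m (by omega)
  intro N d M lam ψ ψ' Mf hN hd hd2 hM hψ hψ' hsup hdec hlam hFE hMel hRep hMf X hX t
  set C : ℝ := Real.exp (m * (2 + lr)) + (3 / ε + 2 + a0) + 2 * (B * S0) with hC
  set σ : ℝ := (m : ℝ) ^ 2 / 2 with hσ
  have hN0 : 0 < N := by linarith
  -- logarithms
  set L : ℝ := Real.log N / m with hL
  set Dl : ℝ := -Real.log d with hDl
  have hL0 : 0 ≤ L := div_nonneg (Real.log_nonneg hN) (by positivity)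
  have hDl0 : 0 < Dl := by
    rw [hDl, neg_pos]
    exact Real.log_neg hd (by linarith)
  have hNe : Real.exp (m * L) = N := by
    rw [hL, mul_div_cancel₀ _ hm0, Real.exp_log hN0]
  have hde : Real.exp Dl = d⁻¹ := by
    rw [hDl, Real.exp_neg, Real.exp_log hd]
  set Λ : ℝ := L + Dl with hΛ
  have hΛ0 : 0 < Λ := by linarith
  have hY : (N * d⁻¹ ^ m) ^ (1 / 2 : ℝ) = Real.exp (m * Λ / 2) := by
    rw [← hNe, ← hde, ← Real.exp_nat_mul, ← Real.exp_add, ← Real.exp_mul]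
    congr 1
    rw [hΛ]
    ring
  have hNd : N / d = Real.exp (m * L + Dl) := by
    rw [Real.exp_add, hNe, hde, div_eq_mul_inv]
  have hΛm : Λ ≤ m * L + Dl := by
    have := le_mul_of_one_le_left hL0 hmr
    linarith
  have hpow : Real.exp (ε * Λ) ≤ (N / d) ^ ε := by
    rw [hNd, ← Real.exp_mul]
    rw [Real.exp_le_exp, mul_comm]
    exact mul_le_mul_of_nonneg_right hΛm hε.le
  have hpow1 : 1 ≤ (N / d) ^ ε := (Real.one_le_exp (by positivity)).trans hpow
  have hXl : Real.exp (m * Λ / 2) * Real.exp (ε * Λ) * Real.exp (m * (2 + lr)) ≤ X := by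
    refine le_trans ?_ hX
    rw [hY]
    calc Real.exp (m * Λ / 2) * Real.exp (ε * Λ) * Real.exp (m * (2 + lr)) ≤
          Real.exp (m * Λ / 2) * (N / d) ^ ε * C := by
          refine mul_le_mul (mul_le_mul_of_nonneg_left hpow (Real.exp_pos _).le) ?_
            (Real.exp_pos _).le (by positivity)
          rw [hC]
          have : 0 ≤ 3 / ε + 2 + (a0 : ℝ) := by positivity
          have : 0 ≤ 2 * (B * S0) := by positivity
          linarith
      _ = _ := by ring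
  have hX0 : 0 < (X : ℝ) := lt_of_lt_of_le (by positivity) hXl
  have hX1 : 1 ≤ X := by
    have : 0 < X := by exact_mod_cast hX0
    omega
  -- the integers
  set b : ℕ := ⌈Λ / 2⌉₊ with hb
  have hb1 : Λ / 2 ≤ b := Nat.le_ceil _
  have hb2 : (b : ℝ) < Λ / 2 + 1 := Nat.ceil_lt_add_one (by positivity)
  set J2 : ℕ := ⌈2 * Λ⌉₊ with hJ2
  have hj1 : 2 * Λ ≤ J2 := Nat.le_ceil _
  have hj2 : (J2 : ℝ) < 2 * Λ + 1 := Nat.ceil_lt_add_one (by positivity)
  have hΛε : Λ ≤ (N / d) ^ ε / ε := by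
    rw [le_div_iff₀ hε]
    have h1 := Real.add_one_le_exp (ε * Λ)
    have h2 : Λ * ε = ε * Λ := mul_comm _ _
    linarith
  set I0 : ℝ := ∫ τ : ℝ, kk m τ * ‖SX lam X (1 / 2 + ((t + τ : ℝ) : ℂ) * Complex.I)‖ with hI0
  have hI00 : 0 ≤ I0 := integral_nonneg fun τ => mul_nonneg ((kk_krn m hm).nn τ) (norm_nonneg _)
  -- the Mellin transforms in the additive variable
  have hLm : LmA m ψ lam (1 / 2 + t * Complex.I) =
      ∫ x, thA m ψ lam (Real.exp x) * ex σ m t x := by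
    unfold LmA
    exact mel_exp m (thA m ψ lam) t
  have hMe : ∀ t : ℝ, ‖∫ x, ψ (Real.exp x) * ex σ m t x‖ ≤ M := by
    intro t
    have := hMel t
    unfold MelA at this
    rwa [mel_exp m ψ t] at this
  rw [hLm]
  have hRnn : 0 ≤ C * M * (N / d) ^ ε * (1 + I0) := by positivity
  by_cases hF : Integrable fun x => thA m ψ lam (Real.exp x) * ex σ m t x
  swap
  · rw [integral_undef hF, norm_zero]
    exact hRnn
  -- the direct part
  obtain ⟨Gh, hG, -⟩ := cut1 (-(a0 : ℝ)) (b + a0)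
  obtain ⟨hi1, -, hbd1⟩ := dir_bd (direct_int (m := m) hr0 hψ hsup) hG hm0 t M hMe
    (Finset.Icc 1 X) (ac m lam) (ll m)
  simp only [sum_SX hm] at hbd1
  have hkk := kk_int m hm (fun u => ‖SX lam X (1 / 2 + (u : ℂ) * Complex.I)‖) t
  rw [hkk] at hbd1
  obtain ⟨hz, hfin⟩ := direct_fin hm hr0 hsup lam
  set F1 : ℝ → ℂ := fun x => (∑ n ∈ Finset.Icc 1 X, ac m lam n * ψ (Real.exp (x - ll m n))) *
    ((gs (x - -(a0 : ℝ)) - gs (x - -(a0 : ℝ) - ((b + a0 : ℕ) : ℝ)) : ℝ) : ℂ) * ex σ m t x with hF1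
  set F2 : ℝ → ℂ := fun x => thA m ψ lam (Real.exp x) * ((gs (x - b) : ℝ) : ℂ) * ex σ m t x
    with hF2
  have hsub : ∀ x, thA m ψ lam (Real.exp x) * ex σ m t x - F1 x = F2 x := by
    intro x
    have e1 : x - -(a0 : ℝ) - ((b + a0 : ℕ) : ℝ) = x - b := by push_cast; ring
    have e2 : x - -(a0 : ℝ) = x + a0 := by ring
    simp only [hF1, hF2]
    rw [e1, e2]
    by_cases h1 : x < -lr
    · have h2 := hz x h1
      have h3 : gs (x + a0) - gs (x - b) = 0 ∨
          ∑ n ∈ Finset.Icc 1 X, ac m lam n * ψ (Real.exp (x - ll m n)) = 0 := by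
        right
        rw [← hfin X 0 ?_ x (by linarith), h2]
        refine le_trans ?_ hXl
        rw [zero_add]
        calc Real.exp (m * Real.log r0) ≤ Real.exp (m * (2 + lr)) :=
              Real.exp_le_exp.2 (mul_le_mul_of_nonneg_left (by linarith) (by positivity))
          _ = 1 * 1 * Real.exp (m * (2 + lr)) := by ring
          _ ≤ _ := by
            refine mul_le_mul_of_nonneg_right ?_ (Real.exp_pos _).le
            exact mul_le_mul (Real.one_le_exp (by positivity)) (Real.one_le_exp (by positivity))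
              zero_le_one (Real.exp_pos _).le
      rw [h2]
      rcases h3 with h3 | h3
      · rw [h3]; simp
      · rw [h3]; simp
    · have h2 : gs (x + a0) = 1 := gs_one (by linarith)
      rw [h2]
      by_cases h3 : x ≤ b + 1
      · rw [← hfin X (b + 1) ?_ x h3]
        · push_cast
          ring
        · refine le_trans ?_ hXl
          rw [← Real.exp_add, ← Real.exp_add, Real.exp_le_exp, ← hlrd]
          have h4 : (m : ℝ) * b ≤ m * (Λ / 2 + 1) :=
            mul_le_mul_of_nonneg_left hb2.le (by positivity)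
          have h5 : 0 ≤ ε * Λ := by positivity
          linarith
      · have h4 : gs (x - b) = 1 := gs_one (by linarith)
        rw [h4]
        simp
  have hi2 : Integrable F2 := by
    refine (hF.sub hi1).congr (Filter.Eventually.of_forall fun x => ?_)
    exact hsub x
  have hsplit : ∫ x, thA m ψ lam (Real.exp x) * ex σ m t x = (∫ x, F1 x) + ∫ x, F2 x := by
    have h1 : ∫ x, F2 x = (∫ x, thA m ψ lam (Real.exp x) * ex σ m t x) - ∫ x, F1 x := by
      rw [← integral_sub hF hi1]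
      exact integral_congr_ae (Filter.Eventually.of_forall fun x => (hsub x).symm)
    rw [h1]
    ring
  -- the dual part
  set c : ℝ := L - b with hc
  set Dd : ℝ → ℂ := fun y => thA m ψ' lam (Real.exp y) * ((gs (c - y) : ℝ) : ℂ) * ex σ m t y
    with hDd
  set u : ℂ := Complex.exp (((-(m * t * L) : ℝ) : ℂ) * Complex.I) with hu
  have hun : ‖u‖ = 1 := exp_norm _
  have hFD : ∀ y, F2 (L - y) = u * (starRingEnd ℂ) (Dd y) := by
    intro y
    have hpos := Real.exp_pos (L - y)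
    have h1 := hFE (Real.exp (L - y)) hpos
    have h2 : N ^ (1 / (m : ℝ)) / Real.exp (L - y) = Real.exp y := by
      have h3 : N ^ (1 / (m : ℝ)) = Real.exp L := by
        rw [Real.rpow_def_of_pos hN0, hL]
        congr 1
        ring
      rw [h3, ← Real.exp_sub]
      congr 1
      ring
    rw [h2] at h1
    simp only [hF2, hDd]
    rw [h1]
    have e1 : L - y - b = c - y := by rw [hc]; ring
    rw [e1]
    have h4 : (((Real.exp (L - y) ^ (m ^ 2) * N ^ (-((m : ℝ) / 2)) : ℝ)) : ℂ) * ex σ m t (L - y) =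
        u * (starRingEnd ℂ) (ex σ m t y) := by
      have h5 : Real.exp (L - y) ^ (m ^ 2) * N ^ (-((m : ℝ) / 2)) =
          Real.exp ((m : ℝ) ^ 2 * (L - y) - (m : ℝ) ^ 2 / 2 * L) := by
        rw [← Real.exp_nat_mul, ← hNe, ← Real.exp_mul, ← Real.exp_add]
        congr 1
        push_cast
        ring
      rw [h5, hu]
      unfold ex
      rw [← Complex.exp_conj, Complex.ofReal_exp, ← Complex.exp_add, ← Complex.exp_add]
      congr 1
      rw [map_add, map_mul, Complex.conj_ofReal, Complex.conj_ofReal, Complex.conj_I, hσ]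
      push_cast
      ring
    rw [map_mul, map_mul, Complex.conj_ofReal]
    calc _ = (starRingEnd ℂ) (thA m ψ' lam (Real.exp y)) * ((gs (c - y) : ℝ) : ℂ) *
          ((((Real.exp (L - y) ^ (m ^ 2) * N ^ (-((m : ℝ) / 2)) : ℝ)) : ℂ) *
            ex σ m t (L - y)) := by ring
      _ = _ := by rw [h4]; ring
  have hiD : Integrable Dd := by
    have h1 : Integrable fun y => F2 (L - y) := hi2.comp_sub_left L
    have h2 : Integrable fun y => (starRingEnd ℂ) (Dd y) := by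
      have h3 : Integrable fun y => u⁻¹ * F2 (L - y) := h1.const_mul _
      refine h3.congr (Filter.Eventually.of_forall fun y => ?_)
      simp only []
      rw [hFD y, ← mul_assoc, inv_mul_cancel₀, one_mul]
      intro h
      rw [h, norm_zero] at hun
      exact zero_ne_one hun
    have h4 : Integrable fun y => (starRingEnd ℂ) ((starRingEnd ℂ) (Dd y)) :=
      (Complex.conjLIE.toContinuousLinearEquiv.toContinuousLinearMap).integrable_comp h2
    refine h4.congr (Filter.Eventually.of_forall fun y => ?_)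
    exact Complex.conj_conj _
  have hnD : ‖∫ x, F2 x‖ = ‖∫ y, Dd y‖ := by
    rw [← integral_sub_left_eq_self F2 volume L]
    simp only [hFD]
    rw [integral_const_mul, norm_mul, hun, one_mul, integral_conj, RCLike.norm_conj]
  have hdual := dual_pw hm K1 J2 (c := c) hB hM hd hψ' hdec hlam hRep hMf X hX1 t hiD
  rw [← hI0] at hdual hbd1
  set K : ℕ := m * (m + 2 + K1) with hK
  have hKr : (K : ℝ) = m * (m + 2 + K1) := by rw [hK]; push_cast; ring
  have hK1r : (0 : ℝ) ≤ K1 := Nat.cast_nonneg K1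
  have hdK : d⁻¹ ^ K = Real.exp (K * Dl) := by
    rw [Real.exp_nat_mul, hde]
  have hcb : c ≤ (L - Dl) / 2 := by rw [hc]; linarith
  have hσ0 : 0 < σ := by positivity
  have hKσ : 0 ≤ (K : ℝ) - σ := by
    have h1 : (K : ℝ) - σ = (m : ℝ) ^ 2 / 2 + 2 * m + m * K1 := by rw [hKr, hσ]; ring
    rw [h1]
    positivity
  have hE1 : d⁻¹ ^ K * ((X : ℝ) ^ K1)⁻¹ * Real.exp (((K : ℝ) - (m : ℝ) ^ 2 / 2) * c) ≤ 1 := by
    have h1 : ((X : ℝ) ^ K1)⁻¹ ≤ Real.exp (-(K1 * (m * Λ / 2 + ε * Λ))) := by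
      rw [Real.exp_neg, Real.exp_nat_mul]
      refine inv_anti₀ (by positivity) (pow_le_pow_left₀ (Real.exp_pos _).le ?_ _)
      refine le_trans ?_ hXl
      rw [Real.exp_add]
      refine le_mul_of_one_le_right (by positivity) (Real.one_le_exp (by positivity))
    rw [hdK, ← hσ]
    calc Real.exp (K * Dl) * ((X : ℝ) ^ K1)⁻¹ * Real.exp (((K : ℝ) - σ) * c) ≤
          Real.exp (K * Dl) * Real.exp (-(K1 * (m * Λ / 2 + ε * Λ))) *
            Real.exp (((K : ℝ) - σ) * ((L - Dl) / 2)) := by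
          refine mul_le_mul (mul_le_mul_of_nonneg_left h1 (Real.exp_pos _).le) ?_
            (Real.exp_pos _).le (by positivity)
          exact Real.exp_le_exp.2 (mul_le_mul_of_nonneg_left hcb hKσ)
      _ = Real.exp (K * Dl + -(K1 * (m * Λ / 2 + ε * Λ)) + ((K : ℝ) - σ) * ((L - Dl) / 2)) := by
          rw [Real.exp_add, Real.exp_add]
      _ ≤ 1 := by
          rw [Real.exp_le_one_iff]
          have h2 : (m : ℝ) * (m + 2) + (m : ℝ) ^ 2 ≤ K1 * ε := by
            rwa [div_le_iff₀ hε] at hK1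
          have h3 : K * Dl + -(K1 * (m * Λ / 2 + ε * Λ)) + ((K : ℝ) - σ) * ((L - Dl) / 2) =
              ((m : ℝ) * (m + 2) / 2 - K1 * ε) * Λ - σ * (L - Dl) / 2 := by
            rw [hKr, hΛ]
            ring
          rw [h3]
          have h4 : -(σ * (L - Dl) / 2) ≤ σ * Λ / 2 := by
            rw [hΛ]
            linarith [mul_nonneg hσ0.le hL0]
          have h5 : ((m : ℝ) * (m + 2) / 2 - K1 * ε) * Λ ≤
              ((m : ℝ) * (m + 2) / 2 - ((m : ℝ) * (m + 2) + (m : ℝ) ^ 2)) * Λ :=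
            mul_le_mul_of_nonneg_right (by linarith) hΛ0.le
          have h6 : ((m : ℝ) * (m + 2) / 2 - ((m : ℝ) * (m + 2) + (m : ℝ) ^ 2)) * Λ +
              σ * Λ / 2 ≤ 0 := by
            have h7 : ((m : ℝ) * (m + 2) / 2 - ((m : ℝ) * (m + 2) + (m : ℝ) ^ 2)) * Λ +
              σ * Λ / 2 = -(((m : ℝ) * (m + 2) / 2 + 3 / 4 * (m : ℝ) ^ 2) * Λ) := by
              rw [hσ]; ring
            rw [h7, neg_nonpos]
            positivity
          linarith
  have hE2 : d⁻¹ ^ K * Real.exp (((K : ℝ) - (m : ℝ) ^ 2 / 2) * (c - J2)) ≤ 1 := by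
    rw [hdK, ← hσ, ← Real.exp_add, Real.exp_le_one_iff]
    have h1 : c - J2 ≤ -(2 * Dl) := by
      rw [hΛ] at hj1
      linarith
    have h2 : ((K : ℝ) - σ) * (c - J2) ≤ ((K : ℝ) - σ) * (-(2 * Dl)) :=
      mul_le_mul_of_nonneg_left h1 hKσ
    have h3 : K * Dl + ((K : ℝ) - σ) * (-(2 * Dl)) = -(((K : ℝ) - 2 * σ) * Dl) := by ring
    have h4 : 0 ≤ (K : ℝ) - 2 * σ := by
      have h6 : (K : ℝ) - 2 * σ = 2 * m + m * K1 := by rw [hKr, hσ]; ring
      rw [h6]
      positivity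
    have h5 : 0 ≤ ((K : ℝ) - 2 * σ) * Dl := mul_nonneg h4 hDl0.le
    linarith
  rw [hsplit]
  refine (norm_add_le _ _).trans ?_
  rw [hnD]
  have hP : 0 ≤ (N / d) ^ ε := by linarith
  have hj : ((b + a0 : ℕ) : ℝ) + J2 ≤ (3 / ε + 2 + a0) * (N / d) ^ ε := by
    push_cast
    have h1 : (b : ℝ) + a0 + J2 ≤ 5 / 2 * Λ + 2 + a0 := by linarith
    have h2 : 5 / 2 * Λ ≤ 3 / ε * (N / d) ^ ε := by
      have h3 : 3 / ε * (N / d) ^ ε = 3 * ((N / d) ^ ε / ε) := by ring
      rw [h3]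
      linarith
    have h4 : (2 + (a0 : ℝ)) ≤ (2 + a0) * (N / d) ^ ε := le_mul_of_one_le_right (by positivity) hpow1
    have h5 : (3 / ε + 2 + a0) * (N / d) ^ ε = 3 / ε * (N / d) ^ ε + (2 + a0) * (N / d) ^ ε := by
      ring
    rw [h5]
    linarith
  have herr : B * M * S0 * (d⁻¹ ^ K * ((X : ℝ) ^ K1)⁻¹ *
        Real.exp (((K : ℝ) - (m : ℝ) ^ 2 / 2) * c) +
        d⁻¹ ^ K * Real.exp (((K : ℝ) - (m : ℝ) ^ 2 / 2) * (c - J2))) ≤ 2 * (B * S0) * M := by
    calc _ ≤ B * M * S0 * (1 + 1) :=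
          mul_le_mul_of_nonneg_left (add_le_add hE1 hE2) (by positivity)
      _ = _ := by ring
  have hMI : 0 ≤ M * I0 := mul_nonneg hM hI00
  have hfinal : ‖∫ x, F1 x‖ + ‖∫ y, Dd y‖ ≤
      (((b + a0 : ℕ) : ℝ) + J2) * (M * I0) + 2 * (B * S0) * M := by
    have h1 := hbd1
    have h2 := hdual
    calc ‖∫ x, F1 x‖ + ‖∫ y, Dd y‖ ≤ ((b + a0 : ℕ) : ℝ) * M * I0 + (J2 * M * I0 +
          2 * (B * S0) * M) := add_le_add h1 (h2.trans (add_le_add le_rfl herr))
      _ = _ := by ring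
  refine hfinal.trans ?_
  have h7 : (((b + a0 : ℕ) : ℝ) + J2) * (M * I0) ≤
      ((3 / ε + 2 + a0) * (N / d) ^ ε) * (M * I0) := mul_le_mul_of_nonneg_right hj hMI
  have h8 : 2 * (B * S0) * M ≤ 2 * (B * S0) * M * (N / d) ^ ε :=
    le_mul_of_one_le_right (by positivity) hpow1
  have h9 : C * M * (N / d) ^ ε * (1 + I0) = ((3 / ε + 2 + a0) * (N / d) ^ ε) * (M * I0) +
      2 * (B * S0) * M * (N / d) ^ ε + (Real.exp (m * (2 + lr)) * (M * (N / d) ^ ε) * (1 + I0) +
        (3 / ε + 2 + a0) * (M * (N / d) ^ ε) + 2 * (B * S0) * (M * (N / d) ^ ε) * I0) := by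
    rw [hC]
    ring
  have h10 : 0 ≤ (Real.exp (m * (2 + lr)) * (M * (N / d) ^ ε) * (1 + I0) +
        (3 / ε + 2 + a0) * (M * (N / d) ^ ε) + 2 * (B * S0) * (M * (N / d) ^ ε) * I0) := by
    positivity
  rw [h9]
  linarith

end Pool.Agent.H16.GW
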