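import Pool.Agent.H34.GHY.WSP

/-!
Board gw (MP_52e316_nt): the hybrid fourth moment without weight, for the forms whose spectral
parameters have real part greater than `-1/2`.
-/

namespace Pool.Agent.H16.GW

open MeasureTheory Pool.Agent.H34.GM Pool.Agent.H34.GZ Pool.Agent.H34.GU Pool.Agent.H34.GA
  Pool.Agent.H23.GB Pool.Agent.H34.GHY

/-- the exponential function of the Mellin transform at `1/2 + i t`, in the variable `log r` -/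
noncomputable def exx (m : ℕ) (t x : ℝ) : ℂ :=
  Complex.exp (((-((m : ℝ) ^ 2 / 2 * x) : ℝ) : ℂ) + ((-(m * t * x) : ℝ) : ℂ) * Complex.I)

/-- Fourier transform of a function of one variable -/
noncomputable def ftr (g : ℝ → ℂ) (ξ : ℝ) : ℂ :=
  ∫ x : ℝ, g x * Complex.exp (((-(2 * Real.pi * ξ * x) : ℝ) : ℂ) * Complex.I)

/-- `Mf` represents the Mellin transform of `ψ'` on the critical line, against the smooth cut-off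
functions -/
structure Rep (m : ℕ) (ψ' : ℝ → ℂ) (Mf : ℝ → ℂ) : Prop where
  cont : Continuous Mf
  eq : ∀ g : ℝ → ℂ, ContDiff ℝ ((⊤ : ℕ∞) : WithTop ℕ∞) g → HasCompactSupport g → ∀ t : ℝ,
    Integrable (fun ξ : ℝ => ftr g ξ * Mf (t - 2 * Real.pi * ξ / m)) ∧
    ∫ x : ℝ, ψ' (Real.exp x) * g x * exx m t x =
      ∫ ξ : ℝ, ftr g ξ * Mf (t - 2 * Real.pi * ξ / m)

/-- polynomial growth in the vertical strips -/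
def Pgr (M : ℂ → ℂ) : Prop := ∀ σ : ℝ, ∃ (C : ℝ) (A : ℕ), ∀ s : ℂ, 1 / 2 ≤ s.re → s.re ≤ σ →
  ‖M s‖ ≤ C * (1 + ‖s‖) ^ A

/-- continuation of the Mellin transform to the closed half plane `1/2 ≤ Re s` -/
structure Cn (m : ℕ) (ψ' : ℝ → ℂ) (M : ℂ → ℂ) : Prop where
  an : ∀ s : ℂ, 1 / 2 ≤ s.re → DifferentiableAt ℂ M s
  gr : Pgr M
  eq : ∃ σ0 : ℝ, ∀ s : ℂ, σ0 ≤ s.re → M s = MelA m ψ' s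

/-- the quotient of the two sides of the functional equation of `L` -/
structure Gmf (N : ℕ) (L G : ℂ → ℂ) : Prop where
  an : ∀ s : ℂ, 1 / 2 ≤ s.re → DifferentiableAt ℂ G s
  gr : Pgr G
  one : ∀ t : ℝ, ‖G (1 / 2 + t * Complex.I)‖ = 1
  eq : ∀ s : ℂ, 1 / 2 ≤ s.re →
    G s * L s = (N : ℂ) ^ (1 / 2 - s) * (starRingEnd ℂ) (L (1 - (starRingEnd ℂ) s))

/-- contour shift -/
def T_SHF : Prop := ∀ (m : ℕ) (ψ' : ℝ → ℂ) (M : ℂ → ℂ), 1 ≤ m → ContinuousOn ψ' (Set.Ioi 0) →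
  (∀ K : ℕ, m ^ 2 ≤ K → ∃ C : ℝ, ∀ r : ℝ, 0 < r → ‖ψ' r‖ ≤ C * r ^ K) → Cn m ψ' M →
    Rep m ψ' (fun t : ℝ => M (1 / 2 + t * Complex.I))

/-- the functional equation for the Mellin transforms -/
def T_IDN : Prop := ∀ (m K0 : ℕ) (N B r0 : ℝ) (lam : ℕ → ℂ) (ψ ψ' : ℝ → ℂ) (L : ℂ → ℂ), 1 ≤ m →
  1 ≤ N → 1 ≤ r0 →
  ContinuousOn ψ (Set.Ioi 0) → ContinuousOn ψ' (Set.Ioi 0) →
  (∀ r : ℝ, 0 < r → ψ r ≠ 0 → r0⁻¹ ≤ r ∧ r ≤ r0) →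
  (∀ K : ℕ, K0 ≤ K → ∃ C : ℝ, ∀ r : ℝ, 0 < r → ‖ψ' r‖ ≤ C * r ^ K) →
  (∀ n : ℕ, 1 ≤ n → ‖(n : ℂ) ^ (((m : ℂ) - 1) / 2) * lam n‖ ≤ B * (n : ℝ) ^ m) →
  (∀ r : ℝ, 0 < r → thA m ψ lam r = ((r ^ (m ^ 2) * N ^ (-((m : ℝ) / 2)) : ℝ) : ℂ) *
    (starRingEnd ℂ) (thA m ψ' lam (N ^ (1 / (m : ℝ)) / r))) →
  IsL m 1 lam L → (∀ s : ℂ, LmA m ψ lam s = L s * MelA m ψ s) →
  ∀ s : ℂ, (K0 : ℝ) < m * (s.re + ((m : ℝ) - 1) / 2) →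
    DifferentiableAt ℂ (MelA m ψ') s ∧
    L s * MelA m ψ' s = (N : ℂ) ^ (1 / 2 - s) *
      (starRingEnd ℂ) (L (1 - (starRingEnd ℂ) s) * MelA m ψ (1 - (starRingEnd ℂ) s))

/-- the quotient is holomorphic if the spectral parameters have real part `> -1/2` -/
def T_GAM : Prop := ∀ (m N : ℕ) [NeZero N] (T : ℕ → Finset (ZM m)) (D : Set (V m)),
  SysZ m N T D → ∀ (F : Mat m → VN m N → ℂ) (lam : ℕ → ℂ) (mu : Fin m → ℂ),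
  CusA m N T F lam mu → nU D F = 1 → (∀ j, -(1 / 2 : ℝ) < (mu j).re) →
  ∀ L : ℂ → ℂ, IsL m 1 lam L →
  (∀ ψ : ℝ → ℂ, Wc m ψ lam → ∀ s : ℂ, LmA m ψ lam s = L s * MelA m ψ s) →
  ∃ G : ℂ → ℂ, Gmf N L G

/-- the approximate functional equation, with a continued Mellin transform -/
def T_AFW : Prop := ∀ m : ℕ, 1 ≤ m → ∀ r0 B ε : ℝ, 1 ≤ r0 → 0 < B → 0 < ε →
  ∃ (k : ℝ → ℝ) (K : ℕ) (C : ℝ), Krn k ∧ m ^ 2 ≤ K ∧ 0 < C ∧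
  ∀ (N d M : ℝ) (lam : ℕ → ℂ) (ψ ψ' Mf : ℝ → ℂ), 1 ≤ N → 0 < d → d ≤ 1 / 2 → 0 ≤ M →
  ContinuousOn ψ (Set.Ioi 0) → ContinuousOn ψ' (Set.Ioi 0) →
  (∀ r : ℝ, 0 < r → ψ r ≠ 0 → r0⁻¹ ≤ r ∧ r ≤ r0) →
  (∀ r : ℝ, 0 < r → ‖ψ' r‖ ≤ M * (r / d) ^ K) →
  (∀ n : ℕ, 1 ≤ n → ‖(n : ℂ) ^ (((m : ℂ) - 1) / 2) * lam n‖ ≤ B * (n : ℝ) ^ m) →
  (∀ r : ℝ, 0 < r → thA m ψ lam r = ((r ^ (m ^ 2) * N ^ (-((m : ℝ) / 2)) : ℝ) : ℂ) *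
    (starRingEnd ℂ) (thA m ψ' lam (N ^ (1 / (m : ℝ)) / r))) →
  (∀ t : ℝ, ‖MelA m ψ (1 / 2 + t * Complex.I)‖ ≤ M) →
  Rep m ψ' Mf → (∀ t : ℝ, ‖Mf t‖ ≤ M) →
  ∀ X : ℕ, C * (N * d⁻¹ ^ m) ^ (1 / 2 : ℝ) * (N / d) ^ ε ≤ X → ∀ t : ℝ,
    ‖LmA m ψ lam (1 / 2 + t * Complex.I)‖ ≤ C * M * (N / d) ^ ε *
      (1 + ∫ τ : ℝ, k τ * ‖SX lam X (1 / 2 + ((t + τ : ℝ) : ℂ) * Complex.I)‖)

/-- the bump functions and their Fourier transforms: local facts -/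
def T_LOB : Prop := ∀ (m : ℕ) (χ : ℝ → ℝ) (K : ℕ), 1 ≤ m → Prof χ → m ^ 2 ≤ K → ∃ C : ℝ, 1 ≤ C ∧
  ∀ δ : ℝ, 0 < δ → δ ≤ 1 / 2 → ∀ f : Mat m → ℂ, Cof m f 1 →
    ContinuousOn (uu (Pool.Agent.H34.GA.cf (bi m χ δ)) f) (Set.Ioi 0) ∧
    (∀ r : ℝ, 0 < r → ‖uu (Pool.Agent.H34.GA.cf (bi m χ δ)) f r‖ ≤
      C * δ ^ (m ^ 2) * (r / δ) ^ K) ∧
    (∀ t : ℝ, ‖ZA (bi m χ δ) f (1 / 2 + t * Complex.I)‖ ≤ C * δ ^ (m ^ 2)) ∧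
    (∀ σ : ℝ, ∃ C' : ℝ, ∀ s : ℂ, |s.re| ≤ σ → ‖ZA (bi m χ δ) f s‖ ≤ C') ∧
    ∀ r : ℝ, 0 < r → uu (bi m χ δ) f r ≠ 0 → C⁻¹ ≤ r ∧ r ≤ C

/-- the normalised convolution of a form with a bump function -/
def T_NRM : Prop := ∀ (m : ℕ) (χ : ℝ → ℝ), 1 ≤ m → Prof χ → ∃ c : ℝ, 0 < c ∧
  ∀ (N : ℕ) [NeZero N] (T : ℕ → Finset (ZM m)) (D : Set (V m)), SysZ m N T D →
  ∀ (F : Mat m → VN m N → ℂ) (lam : ℕ → ℂ), CusB m N T F lam → nU D F = 1 →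
  ∀ P δ : ℝ, Lip D F P → 0 ≤ P → 0 < δ → δ ≤ 1 / 2 → δ * (1 + P) ≤ c →
    ∃ F2 : Mat m → VN m N → ℂ, CusB m N T F2 lam ∧ Dcy F2 ∧ NZ F2 ∧ nU D F2 = 1 ∧
      ∀ z : Mat m, sz (z - 1) ≤ δ → ‖c1 D F2 z - 1‖ ≤ 1 / 4

/-- continuation of the Mellin transform of the dual weight -/
def T_CTN : Prop := ∀ (m : ℕ) (χ : ℝ → ℝ), 1 ≤ m → Prof χ → ∃ C : ℝ, 0 < C ∧
  ∀ (N : ℕ) [NeZero N] (T : ℕ → Finset (ZM m)) (D : Set (V m)), SysZ m N T D →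
  ∀ (H : VN m N → ZM m) (xv : VN m N → VN m N), Frk m N H xv →
  ∀ (F : Mat m → VN m N → ℂ) (lam : ℕ → ℂ), CusB m N T F lam → Dcy F → NZ F → nU D F = 1 →
  ∀ L G : ℂ → ℂ, IsL m 1 lam L →
  (∀ ψ : ℝ → ℂ, Wc m ψ lam → ∀ s : ℂ, LmA m ψ lam s = L s * MelA m ψ s) → Gmf N L G →
  ∀ δ : ℝ, 0 < δ → δ ≤ 1 / 2 →
    ∃ M : ℂ → ℂ, Cn m (uu (Pool.Agent.H34.GA.cf (bi m χ δ)) (c2 D H xv F)) M ∧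
      ∀ t : ℝ, ‖M (1 / 2 + t * Complex.I)‖ ≤ C * δ ^ (m ^ 2)

/-- one value on the critical line against short sums, sharp at infinity, without weight -/
def T_HYW : Prop := ∀ m : ℕ, 1 ≤ m → ∀ ε : ℝ, 0 < ε → ∃ (k : ℝ → ℝ) (C : ℝ), Krn k ∧ 0 < C ∧
  ∀ (N : ℕ) [NeZero N] (T : ℕ → Finset (ZM m)) (D : Set (V m)), SysZ m N T D →
  ∀ (F : Mat m → VN m N → ℂ) (lam : ℕ → ℂ) (mu : Fin m → ℂ) (P : ℝ), CusA m N T F lam mu →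
  (∀ j, -(1 / 2 : ℝ) < (mu j).re) →
  nU D F = 1 → Lip D F P → 1 ≤ P → ∀ L : ℂ → ℂ, IsL m 1 lam L → ∀ t : ℝ, |t| ≤ P →
  ∀ X : ℕ, C * ((N : ℝ) * P ^ m) ^ (1 / 2 : ℝ) * (N * P) ^ ε ≤ X →
    ‖L (1 / 2 + t * Complex.I)‖ ≤ C * (N * P) ^ ε *
      (1 + ∫ τ : ℝ, k τ * ‖SX lam X (1 / 2 + ((t + τ : ℝ) : ℂ) * Complex.I)‖)

/-- the hybrid fourth moment at well spaced points, without weight -/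
def T_GFW : Prop := ∀ m : ℕ, 1 ≤ m → ∀ ε : ℝ, 0 < ε → ∃ C : ℝ, 0 < C ∧
  ∀ (N : ℕ) [NeZero N] (T : ℕ → Finset (ZM m)) (D : Set (V m)), SysZ m N T D →
  ∀ P : ℝ, 1 ≤ P → ∀ (ι : Type) [Fintype ι] [DecidableEq ι] (F : ι → Mat m → VN m N → ℂ)
    (lam : ι → ℕ → ℂ) (mu : ι → Fin m → ℂ),
    (∀ i, CusA m N T (F i) (lam i) (mu i) ∧ Lip D (F i) P ∧ ∀ j, -(1 / 2 : ℝ) < (mu i j).re) →
    Orthn D F →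
    ∃ L : ι → ℂ → ℂ, (∀ i, IsL m 1 (lam i) (L i)) ∧
      ∀ J : ι → Finset ℝ, (∀ i, Wsp (J i)) → (∀ i, ∀ t ∈ J i, |t| ≤ P) →
      ∑ i, ∑ t ∈ J i, ‖L i (1 / 2 + t * Complex.I)‖ ^ 4 ≤
        C * ((N : ℝ) * P) ^ ε * (N : ℝ) ^ m * P ^ (m ^ 2)

end Pool.Agent.H16.GW
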